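import Pool.Agent.Lib.MP_144d21_co.X4.Iface
import Pool.Agent.Lib.MP_144d21_co.XU.H80.Base3

/-!
# Module CLQ (helper7): `β` of a complete graph; complete graphs are chordal
-/

set_option autoImplicit false

namespace Pool.Agent.Xu.X4.H7

open Finset Polynomial

/-- the value at `-1` -/
theorem desc_eval_neg_one (n : ℕ) :
    (descPochhammer ℤ n).eval (-1) = (-1) ^ n * (n.factorial : ℤ) := by
  induction n with
  | zero => simp
  | succ n ih =>
    rw [descPochhammer_succ_right, eval_mul, ih, eval_sub, eval_X, eval_natCast,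
      Nat.factorial_succ, pow_succ]
    push_cast
    ring

/-- the derivative at `1` -/
theorem desc_der_one (n : ℕ) :
    (derivative (descPochhammer ℤ (n + 2))).eval 1 = (-1) ^ n * (n.factorial : ℤ) := by
  have h : descPochhammer ℤ (n + 2) =
      X * ((X - 1) * ((descPochhammer ℤ n).comp (X - 1)).comp (X - 1)) := by
    rw [descPochhammer_succ_left, descPochhammer_succ_left, mul_comp, X_comp]
  rw [h, derivative_mul, derivative_mul, derivative_X, derivative_sub, derivative_X,
    derivative_one]
  simp only [eval_add, eval_mul, eval_X, eval_sub, eval_one, eval_comp, one_mul, sub_zero,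
    sub_self, zero_mul, zero_sub, add_zero, zero_add]
  exact desc_eval_neg_one n

theorem clq : ClqS := by
  intro V _ _ G S hQ
  refine ⟨fun h2 => ?_, ?_⟩
  · obtain ⟨n, hn⟩ : ∃ n, S.card = n + 2 := ⟨S.card - 2, by omega⟩
    unfold bet
    rw [H80.chi_clique hQ, hn, desc_der_one, Nat.add_sub_cancel, ← mul_assoc, ← pow_add,
      show n + 2 + n = 2 * (n + 1) by ring, pow_mul, neg_one_sq, one_pow, one_mul]
  · intro n hn f
    by_contra hcon
    push Not at hcon
    obtain ⟨m, rfl⟩ : ∃ m, n = m + 4 := ⟨n - 4, by omega⟩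
    have v1 : ((1 : Fin (m + 4)) : ℕ) = 1 :=
      Nat.mod_eq_of_lt (show 1 < m + 4 from by omega)
    have v2 : ((2 : Fin (m + 4)) : ℕ) = 2 :=
      Nat.mod_eq_of_lt (show 2 < m + 4 from by omega)
    have v0 : ((0 : Fin (m + 4)) : ℕ) = 0 := rfl
    have hne : (0 : Fin (m + 4)) ≠ 2 := by
      intro h
      have h3 := congrArg Fin.val h
      omega
    have h1 : G.Adj (f 0) (f 2) := hQ _ (hcon 0) _ (hcon 2) fun h => hne (f.injective h)
    rw [f.map_adj_iff, SimpleGraph.cycleGraph_adj, sub_eq_iff_eq_add, sub_eq_iff_eq_add] at h1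
    rcases h1 with h1 | h1
    · have h3 := congrArg Fin.val h1
      rw [Fin.val_add, v0, v1, v2, Nat.mod_eq_of_lt (by omega)] at h3
      omega
    · have h3 := congrArg Fin.val h1
      rw [Fin.val_add, v0, v1, v2, Nat.mod_eq_of_lt (by omega)] at h3
      omega

end Pool.Agent.Xu.X4.H7
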